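import Pool.Agent.R846.VE.C

/-! # Classes of sequences whose increments have bounded pseudo-dimension -/

set_option autoImplicit false

namespace Pool.Agent.R846.VF

open Pool.Agent.R846.VE (card_tuple)

/-- the increments of the sequences in `W` have pseudo-dimension at most `D` -/
def VCi (W : Set (ℕ → ℝ)) (D : ℕ) : Prop :=
  ¬ ∃ (i j : Fin (D + 1) → ℕ) (θ : Fin (D + 1) → ℝ), ∀ S : Set (Fin (D + 1)),
    ∃ f ∈ W, ∀ s, s ∈ S ↔ θ s < f (j s) - f (i s)

lemma VCi_shift {W : Set (ℕ → ℝ)} {D : ℕ} (h : VCi W D) (m : ℕ) :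
    VCi {g | ∃ f ∈ W, g = fun j => f (m + j)} D := by
  rintro ⟨i, j, θ, hS⟩
  apply h
  refine ⟨fun s => m + i s, fun s => m + j s, θ, fun S => ?_⟩
  obtain ⟨g, ⟨f, hf, rfl⟩, hg⟩ := hS S
  exact ⟨f, hf, hg⟩

/-- the number of subsets of `N` given sequences cut out by increments and a threshold -/
lemma vc_dual {W : Set (ℕ → ℝ)} {D N K : ℕ} (hW : VCi W D) (hN : 1 ≤ N) (f : Fin N → ℕ → ℝ)
    (hf : ∀ i, f i ∈ W) (x y : ℕ → ℕ) (θ : ℕ → ℝ) :
    ((Finset.range K).image fun k =>
      (Finset.univ.filter fun i : Fin N => θ k < f i (y k) - f i (x k))).card ≤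
      (2 ^ (D + 1) + 1) * N ^ 2 ^ (D + 1) := by
  classical
  set 𝒜 := (Finset.range K).image fun k =>
      (Finset.univ.filter fun i : Fin N => θ k < f i (y k) - f i (x k)) with h𝒜
  have hvc : 𝒜.vcDim ≤ 2 ^ (D + 1) := by
    unfold Finset.vcDim
    refine Finset.sup_le fun s hs => ?_
    rw [Finset.mem_shatterer] at hs
    by_contra hcon
    rw [not_le] at hcon
    -- an injection of the sets of thresholds into `s`
    obtain ⟨e, he⟩ : ∃ e : Finset (Fin (D + 1)) → Fin N, Function.Injective e ∧ ∀ A, e A ∈ s := by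
      have h1 : Fintype.card (Finset (Fin (D + 1))) ≤ s.card := by
        rw [Fintype.card_finset, Fintype.card_fin]
        exact hcon.le
      have h2 : Fintype.card (Finset (Fin (D + 1))) ≤ Fintype.card s := by
        rwa [Fintype.card_coe]
      obtain ⟨e⟩ := Function.Embedding.nonempty_of_card_le h2
      exact ⟨fun A => (e A : Fin N), fun A B h => e.injective (Subtype.ext h), fun A => (e A).2⟩
    obtain ⟨he1, he2⟩ := he
    have hk : ∀ t : Fin (D + 1), ∃ k : ℕ, ∀ A : Finset (Fin (D + 1)),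
        (t ∈ A ↔ θ k < f (e A) (y k) - f (e A) (x k)) := by
      intro t
      set S : Finset (Fin N) := (Finset.univ.filter fun A : Finset (Fin (D + 1)) => t ∈ A).image e with hS
      have hSs : S ⊆ s := by
        intro i hi
        obtain ⟨A, _, rfl⟩ := Finset.mem_image.1 hi
        exact he2 A
      obtain ⟨u, hu, hus⟩ := hs hSs
      rw [h𝒜, Finset.mem_image] at hu
      obtain ⟨k, _, rfl⟩ := hu
      refine ⟨k, fun A => ?_⟩
      have h1 : e A ∈ s ∩ (Finset.univ.filter fun i : Fin N => θ k < f i (y k) - f i (x k)) ↔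
          e A ∈ S := by rw [hus]
      rw [Finset.mem_inter, Finset.mem_filter] at h1
      constructor
      · intro h2
        have h3 : e A ∈ S := Finset.mem_image.2 ⟨A, Finset.mem_filter.2 ⟨Finset.mem_univ _, h2⟩, rfl⟩
        exact (h1.2 h3).2.2
      · intro h2
        have h3 := h1.1 ⟨he2 A, Finset.mem_univ _, h2⟩
        obtain ⟨A', hA', hAA⟩ := Finset.mem_image.1 h3
        rw [← he1 hAA]
        exact (Finset.mem_filter.1 hA').2
    choose k hk using hk
    apply hW
    refine ⟨fun t => x (k t), fun t => y (k t), fun t => θ (k t), fun S => ?_⟩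
    refine ⟨f (e (Finset.univ.filter fun t => t ∈ S)), hf _, fun t => ?_⟩
    rw [← hk t]
    simp
  calc 𝒜.card ≤ 𝒜.shatterer.card := Finset.card_le_card_shatterer 𝒜
    _ ≤ ∑ k ∈ Finset.Iic 𝒜.vcDim, (Fintype.card (Fin N)).choose k := Finset.card_shatterer_le_sum_vcDim
    _ ≤ ∑ k ∈ Finset.Iic (2 ^ (D + 1)), N.choose k := by
        rw [Fintype.card_fin]
        exact Finset.sum_le_sum_of_subset (Finset.Iic_subset_Iic.2 hvc)
    _ ≤ ∑ k ∈ Finset.Iic (2 ^ (D + 1)), N ^ 2 ^ (D + 1) := by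
        refine Finset.sum_le_sum fun k hk => (Nat.choose_le_pow N k).trans ?_
        exact Nat.pow_le_pow_right hN (Finset.mem_Iic.1 hk)
    _ = (2 ^ (D + 1) + 1) * N ^ 2 ^ (D + 1) := by
        rw [Finset.sum_const, Nat.card_Iic, smul_eq_mul]

open Classical in
/-- the pattern of a sequence -/
noncomputable def Pw (M : ℕ) (b c Q s : ℝ) (xs : ℕ → ℕ) (a : ℕ) (f : ℕ → ℝ) (k : ℕ) :
    Fin (M + 1) → Bool := fun l => decide ((-Q + l * s) < b * (f (xs k + a) - f (xs k)) - c)

/-- the number of patterns -/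
lemma pw_card {W : Set (ℕ → ℝ)} {D N K M : ℕ} (hW : VCi W D) (hN : 1 ≤ N) {b : ℝ} (hb : 0 < b)
    (c Q s : ℝ) (xs : ℕ → ℕ) (a : ℕ) (f : Fin N → W) :
    ((Finset.range K).image fun k => fun i => Pw M b c Q s xs a (f i : ℕ → ℝ) k).card ≤
      (2 ^ (D + 1) + 1) ^ (M + 1) * N ^ (2 ^ (D + 1) * (M + 1)) := by
  classical
  have h1 : ((Finset.range K).image fun k => fun i => Pw M b c Q s xs a (f i : ℕ → ℝ) k).card ≤
      ((Finset.range K).image fun k => fun (l : Fin (M + 1)) =>
        (Finset.univ.filter fun i : Fin N => ((-Q + l * s) + c) / b <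
          (f i : ℕ → ℝ) (xs k + a) - (f i : ℕ → ℝ) (xs k))).card := by
    have h2 : ((Finset.range K).image fun k => fun i => Pw M b c Q s xs a (f i : ℕ → ℝ) k) ⊆
        ((Finset.range K).image fun k => fun (l : Fin (M + 1)) =>
        (Finset.univ.filter fun i : Fin N => ((-Q + l * s) + c) / b <
          (f i : ℕ → ℝ) (xs k + a) - (f i : ℕ → ℝ) (xs k))).image
          (fun F i l => decide (i ∈ F l)) := by
      intro z hz
      obtain ⟨k, hk, rfl⟩ := Finset.mem_image.1 hz
      refine Finset.mem_image.2 ⟨_, Finset.mem_image.2 ⟨k, hk, rfl⟩, ?_⟩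
      funext i l
      unfold Pw
      simp only [Finset.mem_filter, Finset.mem_univ, true_and]
      rw [decide_eq_decide, div_lt_iff₀ hb]
      constructor <;> intro h <;> linarith
    exact (Finset.card_le_card h2).trans Finset.card_image_le
  refine h1.trans ((card_tuple (Finset.range K) _).trans ?_)
  calc _ ≤ ∏ l : Fin (M + 1), ((2 ^ (D + 1) + 1) * N ^ 2 ^ (D + 1)) :=
        Finset.prod_le_prod' fun l _ => vc_dual hW hN (fun i => (f i : ℕ → ℝ)) (fun i => (f i).2) xs
          (fun k => xs k + a) (fun _ => ((-Q + l * s) + c) / b)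
    _ = _ := by
        rw [Finset.prod_const, Finset.card_univ, Fintype.card_fin, mul_pow, ← pow_mul]

open Classical in
/-- the value given by a pattern -/
noncomputable def dw (M : ℕ) (Q s : ℝ) (p : Fin (M + 1) → Bool) : Finset ℝ :=
  {-Q + ((Finset.univ.filter fun l => p l = true).card : ℝ) * s}

lemma dw_card (M : ℕ) (Q s : ℝ) (p : Fin (M + 1) → Bool) : (dw M Q s p).card ≤ 1 := by
  unfold dw
  simp

/-- the value of a pattern is near the true value -/
lemma dw_near {M : ℕ} {Q s g : ℝ} (hs : 0 < s) (hM : 2 * Q ≤ M * s) (hg : |g| ≤ Q) :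
    |g - (-Q + (((Finset.univ : Finset (Fin (M + 1))).filter fun l : Fin (M + 1) =>
      decide ((-Q + ((l : ℕ) : ℝ) * s) < g) = true).card : ℝ) * s)| ≤ s := by
  obtain ⟨h1, h2⟩ := abs_le.1 hg
  obtain ⟨z, hz⟩ : ∃ z : ℝ, z = (g + Q) / s := ⟨_, rfl⟩
  have hz0 : 0 ≤ z := by rw [hz]; exact div_nonneg (by linarith) hs.le
  have hzM : z ≤ M := by
    rw [hz, div_le_iff₀ hs]
    linarith
  have hgz : g = -Q + z * s := by rw [hz]; field_simp; ring
  have hcM : ⌈z⌉₊ ≤ M := Nat.ceil_le.2 hzM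
  have hcard : ((Finset.univ : Finset (Fin (M + 1))).filter fun l : Fin (M + 1) =>
      decide ((-Q + ((l : ℕ) : ℝ) * s) < g) = true).card = ⌈z⌉₊ := by
    have h3 : (((Finset.univ : Finset (Fin (M + 1))).filter fun l : Fin (M + 1) =>
      decide ((-Q + ((l : ℕ) : ℝ) * s) < g) = true).image fun l : Fin (M + 1) => (l : ℕ)) = Finset.range ⌈z⌉₊ := by
      ext m
      simp only [Finset.mem_image, Finset.mem_filter, Finset.mem_univ, true_and, decide_eq_true_eq,
        Finset.mem_range]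
      constructor
      · rintro ⟨l, hl, rfl⟩
        rw [Nat.lt_ceil]
        rw [hgz] at hl
        have h4 : (l : ℝ) * s < z * s := by linarith
        exact lt_of_mul_lt_mul_right h4 hs.le
      · intro hm
        refine ⟨⟨m, by omega⟩, ?_, rfl⟩
        rw [Nat.lt_ceil] at hm
        rw [hgz]
        have h4 : (m : ℝ) * s < z * s := mul_lt_mul_of_pos_right hm hs
        show -Q + (m : ℝ) * s < -Q + z * s
        linarith
    rw [← Finset.card_image_of_injective _ Fin.val_injective, h3, Finset.card_range]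
  rw [hcard, hgz]
  have h5 := Nat.le_ceil z
  have h6 := (Nat.ceil_lt_add_one hz0).le
  have h7 : z * s ≤ (⌈z⌉₊ : ℝ) * s := mul_le_mul_of_nonneg_right h5 hs.le
  have h8 : (⌈z⌉₊ : ℝ) * s ≤ (z + 1) * s := mul_le_mul_of_nonneg_right h6 hs.le
  rw [abs_le]
  constructor <;> linarith

end Pool.Agent.R846.VF
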