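import Pool.Agent.R846.VF.A
import Pool.Agent.R846.VE.B
import Pool.Agent.R846.VD.D

/-! # Pairs of places at a given distance, for classes of bounded pseudo-dimension -/

set_option autoImplicit false

namespace Pool.Agent.R846.VF

open Filter Topology MeasureTheory
open Pool.Agent.Y743.CL (Zv Zv_meas)
open Pool.Agent.Y743.NC (dev dev_int dev_nonneg)
open Pool.Agent.R321.QA (hs)
open Pool.Agent.R846.VS (mom dev_meas dev_zero cheb union_bd edge pos1 Dd Dd_Zv Dd_sq Zv_dev' law_vol ph count_le)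
open Pool.Agent.R846.VD (Good3 exc3)
open Pool.Agent.R846.VE (core_v)
open SG (NZ ord ord_le_iff)

/-- one pair of places -/
lemma det_w {T t e R δ ε₁ : ℝ} {a S x : ℕ} (ha : 1 ≤ Real.log a) (hT : 0 < Real.log T)
    (hδ : δ * Real.log T ≤ ε₁ / 2 * Real.sqrt (Real.log a))
    (he : 26 * e ≤ ε₁ * Real.sqrt (Real.log a)) (he0 : 0 < e) (hR : 0 ≤ R) (hS : 1 + R + 2 * e ≤ S * e)
    (h2 : dev T x (t + 0) ≤ R ^ 2)
    (h3 : ∀ s ∈ Finset.Icc (-(S : ℤ)) S, dev T |(s : ℝ) * e| (t + hs (min (x : ℝ) (x + s * e)) T) ≤ e ^ 2)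
    (h2' : dev T ((x + a : ℕ) : ℝ) (t + 0) ≤ R ^ 2)
    (h3' : ∀ s ∈ Finset.Icc (-(S : ℤ)) S,
      dev T |(s : ℝ) * e| (t + hs (min ((x + a : ℕ) : ℝ) ((x + a : ℕ) + s * e)) T) ≤ e ^ 2)
    (f : ℕ → ℝ)
    (d1 : |ord (NZ t + 1 + x) - f x| ≤ δ)
    (d2 : |ord (NZ t + 1 + (x + a)) - f (x + a)| ≤ δ) :
    |Zv a T (t + hs x T) - (Real.pi / Real.sqrt (Real.log a) * (Real.log T / (2 * Real.pi)) *
      (f (x + a) - f x) - Real.pi * a / Real.sqrt (Real.log a))| ≤ ε₁ := by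
  have h := Pool.Agent.R846.VD.det1 (κ := 1) (a := a) (S := S) (x := x) ha hT hδ he he0 hR hS h2 h3 h2' h3'
    (fun _ => f) (fun _ => 1) (by simpa using d1) (by simpa using d2)
  rw [Fin.sum_univ_succ] at h
  simp only [Fin.cons_zero, Fin.cons_succ, mul_one, Fin.sum_univ_one, one_mul] at h
  refine le_trans (le_of_eq ?_) h
  congr 1
  ring

open Classical in
/-- **the deterministic part** -/
lemma good_w {M : ℕ} {T t e R δ ρ η Q s r H : ℝ} {a S L K : ℕ} (xs : ℕ → ℕ) (P : Finset ℕ)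
    (hρ : 0 < ρ) (hη : 0 < η) (hδ : 0 < δ) (hK : 1 ≤ K) (hr : r = Real.sqrt (Real.log a))
    (ha : 1 ≤ Real.log a) (hT : 0 < Real.log T) (he0 : 0 < e) (hR : 0 ≤ R) (hS : 1 + R + 2 * e ≤ S * e)
    (hLr : Real.sqrt (Real.log L) ≤ 2 * r) (hloga : Real.log L ≤ 2 * Real.log a)
    (hP1 : ∀ k < K, xs k ∈ P) (hP2 : ∀ k < K, xs k + a ∈ P)
    (hG : Good3 P K xs a S T R e H t) (hH : H = 160 * K * Real.log L / (η * Real.pi ^ 2))
    (hQ0 : 0 < Q) (hQ2 : Q ^ 2 = 640 / (ρ * η))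
    (he : 26 * e = δ / 2 * r) (hs : s = δ / 2) (hM : 2 * (Q + δ) ≤ M * s) (f : ℕ → ℝ)
    (hcc : ρ * K ≤ (((Finset.range K).filter fun k =>
      |ord (NZ t + 1 + xs k) - f (xs k)| ≤ δ / 8 * Real.sqrt (Real.log L) / Real.log T ∧
      |ord (NZ t + 1 + (xs k + a)) - f (xs k + a)| ≤
        δ / 8 * Real.sqrt (Real.log L) / Real.log T).card : ℝ)) :
    ρ / 2 * K ≤ (({k : ℕ | k < K ∧ ∃ c ∈ dw M (Q + δ) s (Pw M
      (Real.pi / Real.sqrt (Real.log a) * (Real.log T / (2 * Real.pi)))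
      (Real.pi * a / Real.sqrt (Real.log a)) (Q + δ) s xs a f k),
        |Zv a T (t + Pool.Agent.R321.QA.hs (xs k) T) - c| ≤ δ}).ncard : ℝ) := by
  have hpi := Real.pi_pos
  have hKr : (1 : ℝ) ≤ K := by exact_mod_cast hK
  have hr1 : 1 ≤ r := by rw [hr]; exact Real.one_le_sqrt.2 ha
  have hr0 : 0 < r := by linarith
  set J := (Finset.range K).filter fun k =>
      |ord (NZ t + 1 + xs k) - f (xs k)| ≤ δ / 8 * Real.sqrt (Real.log L) / Real.log T ∧
      |ord (NZ t + 1 + (xs k + a)) - f (xs k + a)| ≤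
        δ / 8 * Real.sqrt (Real.log L) / Real.log T with hJ
  set J' := J.filter fun k => |Zv a T (t + Pool.Agent.R321.QA.hs (xs k) T)| ≤ Q with hJ'
  have hbadk : (((Finset.range K).filter fun k => Q < |Zv a T (t + Pool.Agent.R321.QA.hs (xs k) T)|).card : ℝ) ≤
      ρ / 2 * K := by
    have h1 : ∑ k ∈ Finset.range K, Zv a T (t + Pool.Agent.R321.QA.hs (xs k) T) ^ 2 ≤ 320 * K / η := by
      calc _ = Real.pi ^ 2 / Real.log a * ∑ k ∈ Finset.range K,
            dev T a (t + Pool.Agent.R321.QA.hs (xs k) T) := by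
            rw [Finset.mul_sum]
            exact Finset.sum_congr rfl fun k _ => Zv_dev' (by linarith) _ _
        _ ≤ Real.pi ^ 2 / Real.log a * H := mul_le_mul_of_nonneg_left hG.1 (by positivity)
        _ = 160 * K / η * (Real.log L / Real.log a) := by rw [hH]; field_simp
        _ ≤ 160 * K / η * 2 := by
            apply mul_le_mul_of_nonneg_left _ (by positivity)
            rw [div_le_iff₀ (by linarith)]
            exact hloga
        _ = 320 * K / η := by ring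
    refine (count_le _ _ hQ0 h1).trans (le_of_eq ?_)
    rw [hQ2]
    field_simp
    ring
  have hJJ' : (J.card : ℝ) ≤ J'.card + ρ / 2 * K := by
    have h1 : J ⊆ J' ∪ (Finset.range K).filter fun k =>
        Q < |Zv a T (t + Pool.Agent.R321.QA.hs (xs k) T)| := by
      intro k hk
      by_cases h2 : |Zv a T (t + Pool.Agent.R321.QA.hs (xs k) T)| ≤ Q
      · exact Finset.mem_union_left _ (Finset.mem_filter.2 ⟨hk, h2⟩)
      · exact Finset.mem_union_right _ (Finset.mem_filter.2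
          ⟨(Finset.mem_filter.1 hk).1, not_le.1 h2⟩)
    have h2 := (Finset.card_le_card h1).trans (Finset.card_union_le _ _)
    have h3 : (J.card : ℝ) ≤ J'.card + (((Finset.range K).filter fun k =>
        Q < |Zv a T (t + Pool.Agent.R321.QA.hs (xs k) T)|).card : ℝ) := by exact_mod_cast h2
    exact h3.trans (add_le_add le_rfl hbadk)
  have hsub : (J' : Set ℕ) ⊆ {k : ℕ | k < K ∧ ∃ c ∈ dw M (Q + δ) s (Pw M
      (Real.pi / Real.sqrt (Real.log a) * (Real.log T / (2 * Real.pi)))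
      (Real.pi * a / Real.sqrt (Real.log a)) (Q + δ) s xs a f k),
        |Zv a T (t + Pool.Agent.R321.QA.hs (xs k) T) - c| ≤ δ} := by
    intro k hk
    obtain ⟨hk1, hk2⟩ := Finset.mem_filter.1 (Finset.mem_coe.1 hk)
    obtain ⟨h1, h2, h3⟩ := Finset.mem_filter.1 hk1
    have hkK := Finset.mem_range.1 h1
    have hm1 := hP1 k hkK
    have hm2 := hP2 k hkK
    refine ⟨hkK, ?_⟩
    have hd := det_w (δ := δ / 8 * Real.sqrt (Real.log L) / Real.log T) (e := e) (ε₁ := δ / 2)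
        (R := R) (S := S) ha hT (by
          rw [div_mul_cancel₀ _ hT.ne', ← hr]
          have : δ / 8 * Real.sqrt (Real.log L) ≤ δ / 8 * (2 * r) :=
            mul_le_mul_of_nonneg_left hLr (by positivity)
          linarith only [this]) (by rw [← hr]; exact he.le) he0 hR hS
        (hG.2.1 _ hm1) (hG.2.2 _ hm1) (hG.2.1 _ hm2) (hG.2.2 _ hm2) f h2 h3
    obtain ⟨g, hg⟩ : ∃ g : ℝ, g = Real.pi / Real.sqrt (Real.log a) * (Real.log T / (2 * Real.pi)) *
      (f (xs k + a) - f (xs k)) - Real.pi * a / Real.sqrt (Real.log a) := ⟨_, rfl⟩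
    rw [← hg] at hd
    have hgQ : |g| ≤ Q + δ := by
      have h4 : g = Zv a T (t + Pool.Agent.R321.QA.hs (xs k) T) -
          (Zv a T (t + Pool.Agent.R321.QA.hs (xs k) T) - g) := by ring
      rw [h4]
      refine (abs_sub _ _).trans ?_
      linarith only [hd, hk2, hδ]
    have hn := dw_near (M := M) (Q := Q + δ) (s := s) (g := g) (by rw [hs]; positivity) hM hgQ
    refine ⟨_, Finset.mem_singleton_self _, ?_⟩
    unfold Pw
    rw [← hg]
    have h5 : ∀ c : ℝ, Zv a T (t + Pool.Agent.R321.QA.hs (xs k) T) - c =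
        (Zv a T (t + Pool.Agent.R321.QA.hs (xs k) T) - g) + (g - c) := fun c => by ring
    rw [h5]
    refine (abs_add_le _ _).trans ?_
    rw [hs] at hn ⊢
    have h6 := add_le_add hd hn
    refine le_trans ?_ (h6.trans (le_of_eq (by ring)))
    exact le_rfl
  have hfinS : {k : ℕ | k < K ∧ ∃ c ∈ dw M (Q + δ) s (Pw M
      (Real.pi / Real.sqrt (Real.log a) * (Real.log T / (2 * Real.pi)))
      (Real.pi * a / Real.sqrt (Real.log a)) (Q + δ) s xs a f k),
        |Zv a T (t + Pool.Agent.R321.QA.hs (xs k) T) - c| ≤ δ}.Finite :=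
    (Finset.range K).finite_toSet.subset fun k hk => Finset.mem_coe.2 (Finset.mem_range.2 hk.1)
  have h5 := Set.ncard_le_ncard hsub hfinS
  rw [Set.ncard_coe_finset] at h5
  have h6 := (Nat.cast_le (α := ℝ)).2 h5
  have h7 : ρ * K ≤ (J.card : ℝ) := hcc
  refine le_trans ?_ h6
  linarith only [h7, hJJ']

end Pool.Agent.R846.VF
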