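import Pool.Agent.R846.VF.C
import Pool.Agent.R846.VD.E

/-! # The density theorem for the run following a height -/

set_option autoImplicit false

namespace Pool.Agent.R846.VF

open MeasureTheory
open SG (NZ ord)
open Pool.Agent.R846.VD (pigeon offsets avg_meas)

open Classical in
/-- **almost no run following a height agrees with a sequence of the class at a positive proportion
of the places** -/
theorem dens_main_w {ρ : ℝ} (hρ : 0 < ρ) : ∃ ε : ℝ, 0 < ε ∧ ∀ (D : ℕ) (η : ℝ), 0 < η → ∃ L₀ : ℕ,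
    ∀ L : ℕ, L₀ ≤ L → ∀ T : ℝ, 1 ≤ T → (L : ℝ) * Real.log L ≤ 2 * Real.log T →
    ∀ W : Set (ℕ → ℝ), VCi W D →
    volume {t ∈ Set.Icc T (2 * T) | ∃ f ∈ W, ρ * L ≤ (((Finset.range (L + 1)).filter fun j =>
      |ord (NZ t + 1 + j) - f j| ≤ ε * Real.sqrt (Real.log L) / Real.log T).card : ℝ)} ≤
      ENNReal.ofReal (η * T) := by
  classical
  obtain ⟨ρ₁, hρ₁⟩ : ∃ ρ₁ : ℝ, ρ₁ = ρ / 2 := ⟨_, rfl⟩
  have hρ₁0 : 0 < ρ₁ := by rw [hρ₁]; positivity
  obtain ⟨c₀, hc₀⟩ : ∃ c₀ : ℝ, c₀ = ρ₁ ^ 2 / 4 := ⟨_, rfl⟩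
  have hc₀0 : 0 < c₀ := by rw [hc₀]; positivity
  obtain ⟨ε, hε, hpair⟩ := pair_w hc₀0
  refine ⟨ε, hε, fun D η hη => ?_⟩
  obtain ⟨S, hS⟩ : ∃ S : ℕ, S = ⌈6 / ρ₁ ^ 2 + 4 / ρ⌉₊ + 1 := ⟨_, rfl⟩
  have hSr : 6 / ρ₁ ^ 2 + 4 / ρ + 1 ≤ S := by
    rw [hS]; push_cast
    linarith [Nat.le_ceil (6 / ρ₁ ^ 2 + 4 / ρ)]
  have h6 : 0 < 6 / ρ₁ ^ 2 := by positivity
  have h4 : 0 < 4 / ρ := by positivity
  have hS0 : (0 : ℝ) < S := by linarith
  have hS1 : 6 < ρ₁ ^ 2 * S := by
    have h1 : 6 / ρ₁ ^ 2 < S := by linarith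
    rw [div_lt_iff₀ (by positivity)] at h1
    linarith
  have hS2 : 4 ≤ ρ * (S + 1) := by
    have h1 : 4 / ρ ≤ S + 1 := by linarith
    rw [div_le_iff₀ hρ] at h1
    linarith
  obtain ⟨η₁, hη₁⟩ : ∃ η₁ : ℝ, η₁ = η * c₀ / S ^ 2 := ⟨_, rfl⟩
  have hη₁0 : 0 < η₁ := by rw [hη₁]; positivity
  obtain ⟨K, hK, L₀, hL₀⟩ := hpair D (2 * (S + 1)) η₁ (by omega) hη₁0
  have hKr : (1 : ℝ) ≤ K := by exact_mod_cast hK
  obtain ⟨L₁, hL₁⟩ := exists_nat_ge (4 * ((S + 1) * K) / ρ)
  refine ⟨max L₀ (max L₁ ((S + 1) * K)), fun L hL T hT hLT W hW => ?_⟩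
  have hL0 : L₀ ≤ L := (le_max_left _ _).trans hL
  have hL1 : L₁ ≤ L := ((le_max_left _ _).trans (le_max_right _ _)).trans hL
  have hL2 : (S + 1) * K ≤ L := ((le_max_right _ _).trans (le_max_right _ _)).trans hL
  have hT0 : 0 < T := by linarith
  have hSK : 0 < (S + 1) * K := by positivity
  obtain ⟨b, hb⟩ : ∃ b : ℕ, b = L / ((S + 1) * K) := ⟨_, rfl⟩
  have hb1 : 1 ≤ b := by
    rw [hb]
    exact (Nat.one_le_div_iff hSK).2 hL2
  obtain ⟨m, hm⟩ : ∃ m : ℕ, m = K * b := ⟨_, rfl⟩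
  have hm0 : 0 < m := by rw [hm]; positivity
  have hbm : b ≤ m := by rw [hm]; exact Nat.le_mul_of_pos_left b hK
  have hmL : (S + 1) * m ≤ L := by
    rw [hm, ← mul_assoc, hb]
    exact Nat.mul_div_le L ((S + 1) * K)
  have hLlt : L < (S + 1) * K * (b + 1) := by
    rw [hb]
    exact Nat.lt_mul_div_succ L hSK
  have hLb : L ≤ 2 * (S + 1) * (K * b) := by
    have h1 : (S + 1) * K * (b + 1) ≤ (S + 1) * K * (2 * b) := Nat.mul_le_mul_left _ (by omega)
    calc L ≤ (S + 1) * K * (2 * b) := hLlt.le.trans h1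
      _ = 2 * (S + 1) * (K * b) := by ring
  -- the sets
  set δ := ε * Real.sqrt (Real.log L) / Real.log T with hδ
  set Bo : ℕ → ℕ → ℕ → Set ℝ := fun p q o => {t ∈ Set.Icc T (2 * T) | ∃ f ∈ W, c₀ * K ≤
    (((Finset.range K).filter fun k =>
      |ord (NZ t + 1 + (p * m + o + k * b)) - f (p * m + o + k * b)| ≤ δ ∧
      |ord (NZ t + 1 + (p * m + o + k * b + (q - p) * m)) -
        f (p * m + o + k * b + (q - p) * m)| ≤ δ).card : ℝ)} with hBo
  have hBov : ∀ p q o : ℕ, q < S → p + 2 ≤ q → o < b → volume (Bo p q o) ≤ ENNReal.ofReal (η₁ * T) := by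
    intro p q o hq hpq ho
    refine hL₀ L hL0 T hT hLT (p * m + o) ((q - p) * m) b hLb ?_ ?_ W hW
    · rw [← hm]
      exact Nat.mul_le_mul_right m (by omega)
    · rw [← hm]
      have h1 : p * m + o + m + (q - p) * m = (q + 1) * m + o := by
        have h2 : p * m + (q - p) * m = q * m := by rw [← Nat.add_mul]; congr 1; omega
        have h3 : (q + 1) * m = q * m + m := by ring
        omega
      rw [h1]
      have h2 : (q + 1) * m ≤ S * m := Nat.mul_le_mul_right m (by omega)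
      have h3 : (S + 1) * m = S * m + m := by ring
      omega
  set Av : ℕ → ℕ → Set ℝ := fun p q => {t : ℝ | ∃ P : Finset ℕ, P ⊆ Finset.range b ∧
    c₀ * b ≤ (P.card : ℝ) ∧ ∀ o ∈ P, t ∈ Bo p q o} with hAv
  have hAvv : ∀ p q : ℕ, q < S → p + 2 ≤ q → volume (Av p q) ≤ ENNReal.ofReal (η₁ * T / c₀) :=
    fun p q hq hpq => avg_meas hb1 (Bo p q) hc₀0 (by positivity) fun o ho => hBov p q o hq hpq ho
  set I₂ : Finset (ℕ × ℕ) := (Finset.range S ×ˢ Finset.range S).filter fun x => x.1 + 2 ≤ x.2 with hI₂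
  have hI₂c : (I₂.card : ℝ) ≤ S ^ 2 := by
    have h1 : I₂.card ≤ S * S := by
      refine (Finset.card_filter_le _ _).trans ?_
      rw [Finset.card_product, Finset.card_range]
    have h2 : (I₂.card : ℝ) ≤ ((S * S : ℕ) : ℝ) := by exact_mod_cast h1
    rw [Nat.cast_mul] at h2
    rw [sq]
    exact h2
  have hsub : {t ∈ Set.Icc T (2 * T) | ∃ f ∈ W, ρ * L ≤
      (((Finset.range (L + 1)).filter fun j =>
      |ord (NZ t + 1 + j) - f j| ≤ δ).card : ℝ)} ⊆ ⋃ x ∈ I₂, Av x.1 x.2 := by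
    rintro t ⟨ht, f, hf, hc⟩
    set J := (Finset.range (L + 1)).filter fun j => |ord (NZ t + 1 + j) - f j| ≤ δ with hJ
    set J' := J.filter fun j => j < S * m with hJ'
    have hJJ' : (J.card : ℝ) ≤ J'.card + (L + 1 - S * m) := by
      have h1 : J ⊆ J' ∪ Finset.Ico (S * m) (L + 1) := by
        intro j hj
        by_cases h2 : j < S * m
        · exact Finset.mem_union_left _ (Finset.mem_filter.2 ⟨hj, h2⟩)
        · refine Finset.mem_union_right _ (Finset.mem_Ico.2 ⟨not_lt.1 h2, ?_⟩)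
          exact Finset.mem_range.1 (Finset.mem_filter.1 hj).1
      have h2 := (Finset.card_le_card h1).trans (Finset.card_union_le _ _)
      rw [Nat.card_Ico] at h2
      have h3 : S * m ≤ L + 1 := by
        have : (S + 1) * m = S * m + m := by ring
        omega
      have h4 : (J.card : ℝ) ≤ J'.card + ((L + 1 - S * m : ℕ) : ℝ) := by exact_mod_cast h2
      rw [Nat.cast_sub h3] at h4
      push_cast at h4
      exact h4
    have hlost : (L : ℝ) + 1 - S * m ≤ ρ / 2 * L := by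
      have h1 : (L : ℝ) + 1 ≤ (S + 1) * K * (b + 1) := by
        have : L + 1 ≤ (S + 1) * K * (b + 1) := hLlt
        exact_mod_cast this
      have h2 : ((S : ℝ) + 1) * K * (b + 1) = (S + 1) * m + (S + 1) * K := by
        rw [hm]; push_cast; ring
      have h3 : (m : ℝ) ≤ ρ / 4 * L := by
        have h5 : ((S : ℝ) + 1) * m ≤ L := by exact_mod_cast hmL
        have h6 : 4 * (m : ℝ) ≤ ρ * (S + 1) * m := mul_le_mul_of_nonneg_right hS2 (Nat.cast_nonneg m)
        have h7 : ρ * (((S : ℝ) + 1) * m) ≤ ρ * L := mul_le_mul_of_nonneg_left h5 hρ.le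
        linarith
      have h4 : ((S : ℝ) + 1) * K ≤ ρ / 4 * L := by
        have h5 : 4 * ((S + 1) * K) / ρ ≤ (L : ℝ) := hL₁.trans (by exact_mod_cast hL1)
        rw [div_le_iff₀ hρ] at h5
        linarith
      linarith
    have hJ'c : ρ₁ * (S * m) ≤ (J'.card : ℝ) := by
      have h1 : (S : ℝ) * m ≤ L := by
        have h2 : S * m ≤ L := by
          have : (S + 1) * m = S * m + m := by ring
          omega
        exact_mod_cast h2
      have h3 : ρ₁ * (S * m) ≤ ρ₁ * L := mul_le_mul_of_nonneg_left h1 hρ₁0.le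
      rw [hρ₁] at h3 ⊢
      linarith
    obtain ⟨p, q, hq, hpq, hcard⟩ := pigeon hm0 J' (fun j hj => Finset.mem_range.2
      (Finset.mem_filter.1 hj).2) hρ₁0 hS1 hJ'c
    rw [hm] at hcard
    have hoff := offsets (K := K) (b := b) hK (fun x => p * (K * b) + x ∈ J' ∧ q * (K * b) + x ∈ J')
      (c := c₀) (by
        push_cast at hcard
        rw [hc₀]
        refine le_trans (le_of_eq ?_) hcard
        ring)
    rw [Set.mem_iUnion₂]
    refine ⟨(p, q), Finset.mem_filter.2 ⟨Finset.mem_product.2 ⟨Finset.mem_range.2 (by omega),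
      Finset.mem_range.2 hq⟩, hpq⟩, ?_⟩
    refine ⟨_, Finset.filter_subset _ _, hoff, fun o ho => ⟨ht, f, hf, ?_⟩⟩
    refine (Finset.mem_filter.1 ho).2.trans ?_
    have h1 : ((Finset.range K).filter fun k => p * (K * b) + (k * b + o) ∈ J' ∧
        q * (K * b) + (k * b + o) ∈ J') ⊆ ((Finset.range K).filter fun k =>
      |ord (NZ t + 1 + (p * m + o + k * b)) - f (p * m + o + k * b)| ≤ δ ∧
      |ord (NZ t + 1 + (p * m + o + k * b + (q - p) * m)) -
        f (p * m + o + k * b + (q - p) * m)| ≤ δ) := by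
      intro k hk
      obtain ⟨g1, g2, g3⟩ := Finset.mem_filter.1 hk
      refine Finset.mem_filter.2 ⟨g1, ?_, ?_⟩
      · have e1 : p * m + o + k * b = p * (K * b) + (k * b + o) := by rw [hm]; ring
        rw [e1]
        exact (Finset.mem_filter.1 (Finset.mem_filter.1 g2).1).2
      · have e1 : p * m + o + k * b + (q - p) * m = q * (K * b) + (k * b + o) := by
          have h2 : p * m + (q - p) * m = q * m := by rw [← Nat.add_mul]; congr 1; omega
          have h3 : q * m = q * (K * b) := by rw [hm]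
          omega
        rw [e1]
        exact (Finset.mem_filter.1 (Finset.mem_filter.1 g3).1).2
    exact_mod_cast Finset.card_le_card h1
  refine (measure_mono hsub).trans ((measure_biUnion_finset_le _ _).trans ?_)
  calc ∑ x ∈ I₂, volume (Av x.1 x.2) ≤ ∑ x ∈ I₂, ENNReal.ofReal (η₁ * T / c₀) := by
        refine Finset.sum_le_sum fun x hx => ?_
        obtain ⟨h1, h2⟩ := Finset.mem_filter.1 hx
        exact hAvv x.1 x.2 (Finset.mem_range.1 (Finset.mem_product.1 h1).2) h2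
    _ = ENNReal.ofReal (I₂.card * (η₁ * T / c₀)) := by
        rw [Finset.sum_const, nsmul_eq_mul, ENNReal.ofReal_mul (Nat.cast_nonneg _),
          ENNReal.ofReal_natCast]
    _ ≤ ENNReal.ofReal (η * T) := by
        apply ENNReal.ofReal_le_ofReal
        calc I₂.card * (η₁ * T / c₀) ≤ S ^ 2 * (η₁ * T / c₀) :=
              mul_le_mul_of_nonneg_right hI₂c (by positivity)
          _ = η * T := by rw [hη₁]; field_simp

end Pool.Agent.R846.VF
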