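import Pool.Agent.R846.VF.D
import Pool.Agent.R846.VD.G
import Pool.Agent.R846.VS.I
import Pool.Agent.R846.VS.J
import Mathlib.LinearAlgebra.Matrix.Dual
import Mathlib.LinearAlgebra.Dual.Lemmas

/-! # The density theorem for the ordinates up to `N` -/

set_option autoImplicit false

open Filter Topology MeasureTheory Set

namespace Pool.Agent.R846.VF

open SG (ord NZ)
open Pool.Agent.R846.UL (cn cn_eq cn_mono)
open Pool.Agent.R846.VS (palm_unif)

open Classical in
/-- one dyadic block -/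
theorem blk_w {ρ : ℝ} (hρ : 0 < ρ) : ∃ δ : ℝ, 0 < δ ∧ ∀ (D : ℕ) (ε : ℝ), 0 < ε → ε ≤ 1 → ∃ L₀ : ℕ,
    ∀ L : ℕ, L₀ ≤ L →
    ∀ T : ℝ, 1 ≤ T → (L : ℝ) * Real.log L ≤ 2 * Real.log T → ∀ W : Set (ℕ → ℝ), VCi W D →
    ∀ (E : ℕ → Prop), (∀ n, E n → ∃ f ∈ W, ρ * L ≤
      (((Finset.range (L + 1)).filter fun j => |ord (n + j) - f j| ≤
        δ * Real.sqrt (Real.log L) / Real.log (ord n)).card : ℝ)) →
    (((Finset.Ioc (NZ T) (NZ (2 * T))).filter E).card : ℝ) ≤ ε * (T * Real.log T / (2 * Real.pi)) := by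
  classical
  obtain ⟨δ, hδ, hdens⟩ := dens_main_w (show 0 < ρ / 2 by positivity)
  refine ⟨δ / 2, by positivity, fun D ε hε hε1 => ?_⟩
  obtain ⟨S', T1, hT1, hpalm⟩ := palm_unif hε hε1
  obtain ⟨L1, hL1⟩ := hdens D (ε / (8 * (S' + 1))) (by positivity)
  obtain ⟨L2, hL2⟩ := (Pool.Agent.Y743.CL.bigT 2 (by norm_num) T1).exists_forall_of_atTop
  obtain ⟨L3, hL3⟩ := exists_nat_ge (2 * S' / ρ)
  refine ⟨2 * L1 + L2 + L3 + 2 * S' + 8, fun L hL T hT hLT W hW E hE => ?_⟩
  have hTT1 := hL2 L (by omega) T hT hLT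
  obtain ⟨L', hL'⟩ : ∃ L' : ℕ, L' = L - S' := ⟨_, rfl⟩
  have h1 : L1 ≤ L' := by omega
  have h2 : L' + S' = L := by omega
  have h3 : 4 ≤ L' := by omega
  have h4 : L ≤ L' ^ 2 := by
    have : L ≤ 2 * L' := by omega
    nlinarith
  have hL'r : (4 : ℝ) ≤ L' := by exact_mod_cast h3
  have h5r : (L' : ℝ) ≤ L := by exact_mod_cast (by omega : L' ≤ L)
  have hlogL : 0 < Real.log L := Real.log_pos (by linarith)
  have hlogL' : 0 < Real.log L' := Real.log_pos (by linarith)
  have h6 : (L' : ℝ) * Real.log L' ≤ 2 * Real.log T := by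
    have a1 : Real.log L' ≤ Real.log L := Real.log_le_log (by linarith) (by linarith)
    exact (mul_le_mul h5r a1 hlogL'.le (by linarith)).trans hLT
  have h7 : Real.sqrt (Real.log L) ≤ 2 * Real.sqrt (Real.log L') := by
    have a1 : Real.log L ≤ 2 * Real.log L' := by
      have a2 : (L : ℝ) ≤ (L' : ℝ) ^ 2 := by exact_mod_cast h4
      calc Real.log L ≤ Real.log ((L' : ℝ) ^ 2) := Real.log_le_log (by linarith) a2
        _ = 2 * Real.log L' := by rw [Real.log_pow]; norm_num
    calc Real.sqrt (Real.log L) ≤ Real.sqrt (2 ^ 2 * Real.log L') := Real.sqrt_le_sqrt (by linarith)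
      _ = 2 * Real.sqrt (Real.log L') := by rw [Real.sqrt_mul (by norm_num), Real.sqrt_sq (by norm_num)]
  have hT10 : 10 ≤ T := hT1.trans hTT1
  have hlogT : 0 < Real.log T := Real.log_pos (by linarith)
  refine hpalm T hTT1 (fun s => {t | ∃ f ∈ {g : ℕ → ℝ | ∃ f ∈ W, g = fun j => f (s + j)}, ρ / 2 * L' ≤
      (((Finset.range (L' + 1)).filter fun j => |ord (NZ t + 1 + j) - f j| ≤
        δ * Real.sqrt (Real.log L') / Real.log T).card : ℝ)}) E ?_ ?_
  · intro s _
    refine le_trans (measure_mono ?_) (hL1 L' h1 T hT h6 _ (VCi_shift hW s))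
    rintro t ⟨h8, h9⟩
    exact ⟨h9, h8⟩
  · intro n hn hnT s hs t _ _ hts
    obtain ⟨f, hf, hc⟩ := hE n hn
    refine ⟨fun j => f (s + j), ⟨f, hf, rfl⟩, ?_⟩
    have h9 : T < ord n := by
      by_contra hcon
      push Not at hcon
      have := (SG.ord_le_iff (by omega : 1 ≤ n) _).mp hcon
      omega
    have h10 : Real.log T ≤ Real.log (ord n) := Real.log_le_log (by linarith) h9.le
    have h11 : δ / 2 * Real.sqrt (Real.log L) / Real.log (ord n) ≤
        δ * Real.sqrt (Real.log L') / Real.log T := by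
      calc δ / 2 * Real.sqrt (Real.log L) / Real.log (ord n)
          ≤ (δ / 2 * (2 * Real.sqrt (Real.log L'))) / Real.log (ord n) := by
            apply div_le_div_of_nonneg_right _ (by linarith)
            exact mul_le_mul_of_nonneg_left h7 (by positivity)
        _ ≤ (δ / 2 * (2 * Real.sqrt (Real.log L'))) / Real.log T :=
            div_le_div_of_nonneg_left (by positivity) hlogT h10
        _ = _ := by ring
    set J := (Finset.range (L + 1)).filter fun j => |ord (n + j) - f j| ≤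
        δ / 2 * Real.sqrt (Real.log L) / Real.log (ord n) with hJ
    set J' := (Finset.range (L' + 1)).filter fun j => |ord (NZ t + 1 + j) - f (s + j)| ≤
        δ * Real.sqrt (Real.log L') / Real.log T with hJ'
    have hsub : J ⊆ J'.image (fun j => s + j) ∪ (Finset.range s ∪ Finset.Ioc (s + L') L) := by
      intro j hj
      obtain ⟨g1, g2⟩ := Finset.mem_filter.1 hj
      have g3 := Finset.mem_range.1 g1
      by_cases g4 : j < s
      · exact Finset.mem_union_right _ (Finset.mem_union_left _ (Finset.mem_range.2 g4))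
      by_cases g5 : s + L' < j
      · exact Finset.mem_union_right _ (Finset.mem_union_right _ (Finset.mem_Ioc.2 ⟨g5, by omega⟩))
      refine Finset.mem_union_left _ (Finset.mem_image.2 ⟨j - s, Finset.mem_filter.2
        ⟨Finset.mem_range.2 (by omega), ?_⟩, by omega⟩)
      have e1 : NZ t + 1 + (j - s) = n + j := by omega
      have e2 : s + (j - s) = j := by omega
      rw [e1, e2]
      exact g2.trans h11
    have hcard : (J.card : ℝ) ≤ J'.card + S' := by
      have g1 := (Finset.card_le_card hsub).trans (Finset.card_union_le _ _)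
      have g2 := Finset.card_union_le (Finset.range s) (Finset.Ioc (s + L') L)
      rw [Finset.card_range, Nat.card_Ioc] at g2
      have g3 : (J'.image (fun j => s + j)).card ≤ J'.card := Finset.card_image_le
      have g4 : J.card ≤ J'.card + S' := by omega
      exact_mod_cast g4
    have hL3' : S' ≤ ρ / 2 * (L : ℝ) := by
      have g1 : 2 * S' / ρ ≤ (L : ℝ) := hL3.trans (by exact_mod_cast (by omega : L3 ≤ L))
      rw [div_le_iff₀ hρ] at g1
      linarith
    have : ρ / 2 * (L' : ℝ) ≤ ρ / 2 * L := mul_le_mul_of_nonneg_left h5r (by positivity)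
    linarith

open Classical in
/-- **for almost all `n` no sequence of a given class agrees with the run of ordinates at a positive
proportion of the places** -/
theorem ord_w {ρ : ℝ} (hρ : 0 < ρ) : ∃ δ : ℝ, 0 < δ ∧ ∀ (D : ℕ) (η : ℝ), 0 < η → ∃ L₀ : ℕ,
    ∀ L : ℕ, L₀ ≤ L → ∀ N : ℕ, 1 ≤ N → (L : ℝ) * Real.log L ≤ Real.log N →
    ∀ W : Set (ℕ → ℝ), VCi W D →
    cn N {n | ∃ f ∈ W, ρ * L ≤
      (((Finset.range (L + 1)).filter fun j => |ord (n + j) - f j| ≤
        δ * Real.sqrt (Real.log L) / Real.log (ord n)).card : ℝ)} ≤ η * N := by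
  classical
  obtain ⟨δ, hδ, hblk⟩ := blk_w hρ
  refine ⟨δ, hδ, fun D η hη => ?_⟩
  obtain ⟨e, he⟩ : ∃ e : ℝ, e = min (η / 2) 1 := ⟨_, rfl⟩
  have he0 : 0 < e := by rw [he]; exact lt_min (by positivity) one_pos
  have he1 : e ≤ 1 := by rw [he]; exact min_le_right _ _
  have heη : e ≤ η / 2 := by rw [he]; exact min_le_left _ _
  obtain ⟨N₀, hN₀, hasm⟩ := Pool.Agent.R320.CL.asm e he0 he1
  obtain ⟨L1, hL1⟩ := hblk D e he0 he1
  refine ⟨max L1 (max N₀ 3), fun L hL N hN hLN W hW => ?_⟩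
  have h1 : L1 ≤ L := (le_max_left _ _).trans hL
  have h2 : N₀ ≤ L := ((le_max_left _ _).trans (le_max_right _ _)).trans hL
  have h3 : 3 ≤ L := ((le_max_right _ _).trans (le_max_right _ _)).trans hL
  have h3r : (3 : ℝ) ≤ L := by exact_mod_cast h3
  have hlogL : 1 ≤ Real.log L := by
    rw [Real.le_log_iff_exp_le (by linarith)]
    linarith [Real.exp_one_lt_d9]
  have hNpos : (0 : ℝ) < N := by exact_mod_cast hN
  have hLN' : (L : ℝ) ≤ N := by
    have a1 := Real.log_le_sub_one_of_pos hNpos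
    have a2 : (L : ℝ) * 1 ≤ L * Real.log L := mul_le_mul_of_nonneg_left hlogL (by linarith)
    linarith
  have hNN : N₀ ≤ N := by
    have : L ≤ N := by exact_mod_cast hLN'
    omega
  have g1 := hasm N hNN (fun n => ∃ f ∈ W, ρ * L ≤
      (((Finset.range (L + 1)).filter fun j => |ord (n + j) - f j| ≤
        δ * Real.sqrt (Real.log L) / Real.log (ord n)).card : ℝ)) e he0.le (by linarith)
    (fun T hT hlog => by
      rw [mul_comm (T * Real.log T / (2 * Real.pi)) e]
      exact hL1 L h1 T hT (hLN.trans hlog) W hW _ (fun n hn => hn))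
  rw [cn_eq]
  refine g1.trans (mul_le_mul_of_nonneg_right (by linarith) hNpos.le)


end Pool.Agent.R846.VF
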