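import Pool.Agent.R846.VF.E

/-! # The theorem for classes of finite sequences, and the pseudo-dimension of linear subspaces -/

set_option autoImplicit false

open Filter Topology MeasureTheory Set

namespace Pool.Agent.R846.VF

open SG (ord NZ)
open Pool.Agent.R846.UL (cn cn_eq cn_mono)

/-- the theorem for classes of sequences of length `L + 1` -/
theorem fin_w {ρ : ℝ} (hρ : 0 < ρ) : ∃ δ : ℝ, 0 < δ ∧ ∀ (D : ℕ) (η : ℝ), 0 < η → ∃ L₀ : ℕ,
    ∀ L : ℕ, L₀ ≤ L → ∀ N : ℕ, 1 ≤ N → (L : ℝ) * Real.log L ≤ Real.log N →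
    ∀ W : Set (Fin (L + 1) → ℝ), (¬ ∃ (i j : Fin (D + 1) → Fin (L + 1)) (θ : Fin (D + 1) → ℝ),
      ∀ S : Set (Fin (D + 1)), ∃ w ∈ W, ∀ s, s ∈ S ↔ θ s < w (j s) - w (i s)) →
    cn N {n | ∃ w ∈ W, ρ * L ≤ (({j : Fin (L + 1) | |ord (n + j) - w j| ≤
        δ * Real.sqrt (Real.log L) / Real.log (ord n)} : Set (Fin (L + 1))).ncard : ℝ)} ≤ η * N := by
  classical
  obtain ⟨δ, hδ, h⟩ := ord_w hρ
  refine ⟨δ, hδ, fun D η hη => ?_⟩
  obtain ⟨L0, hL0⟩ := h D η hη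
  refine ⟨L0, fun L hL N hN hLN W hW => ?_⟩
  have hlt : ∀ j : ℕ, min j L < L + 1 := fun j => by omega
  obtain ⟨E, hE⟩ : ∃ E : (Fin (L + 1) → ℝ) → ℕ → ℝ, E = fun w j => w ⟨min j L, hlt j⟩ := ⟨_, rfl⟩
  have hEj : ∀ (w : Fin (L + 1) → ℝ) (j : Fin (L + 1)), E w j = w j := by
    intro w j
    rw [hE]
    show w ⟨min (j : ℕ) L, _⟩ = w j
    congr 1
    apply Fin.ext
    have := j.isLt
    show min (j : ℕ) L = j
    omega
  have hVC : VCi {f | ∃ w ∈ W, f = E w} D := by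
    rintro ⟨i, j, θ, hS⟩
    apply hW
    refine ⟨fun s => ⟨min (i s) L, hlt _⟩, fun s => ⟨min (j s) L, hlt _⟩, θ, fun S => ?_⟩
    obtain ⟨f, ⟨w, hw, rfl⟩, hf⟩ := hS S
    refine ⟨w, hw, fun s => ?_⟩
    have h1 := hf s
    rw [hE] at h1
    exact h1
  refine le_trans (cn_mono fun n _ _ hn => ?_) (hL0 L hL N hN hLN _ hVC)
  obtain ⟨w, hw, hwj⟩ := hn
  refine ⟨E w, ⟨w, hw, rfl⟩, hwj.trans ?_⟩
  rw [Set.ncard_eq_toFinset_card']
  have h1 : (({j : Fin (L + 1) | |ord (n + j) - w j| ≤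
        δ * Real.sqrt (Real.log L) / Real.log (ord n)} : Set (Fin (L + 1))).toFinset).card ≤
      ((Finset.range (L + 1)).filter fun j => |ord (n + j) - E w j| ≤
        δ * Real.sqrt (Real.log L) / Real.log (ord n)).card := by
    refine Finset.card_le_card_of_injOn (fun j => (j : ℕ)) ?_ (fun a _ b _ h => Fin.ext h)
    intro j hj
    rw [Set.coe_toFinset] at hj
    simp only [Finset.coe_filter, Finset.mem_range, Set.mem_ofPred_eq]
    refine ⟨j.isLt, ?_⟩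
    rw [hEj]
    exact hj
  exact_mod_cast h1

/-- the increments of the elements of a linear subspace of dimension at most `D` have
pseudo-dimension at most `D` -/
theorem sub_dim {L D : ℕ} (V : Submodule ℝ (Fin (L + 1) → ℝ)) (hV : Module.finrank ℝ V ≤ D) :
    ¬ ∃ (i j : Fin (D + 1) → Fin (L + 1)) (θ : Fin (D + 1) → ℝ),
      ∀ S : Set (Fin (D + 1)), ∃ w ∈ V, ∀ s, s ∈ S ↔ θ s < w (j s) - w (i s) := by
  classical
  rintro ⟨i, j, θ, h⟩
  -- the functionals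
  set φ : Fin (D + 1) → Module.Dual ℝ V := fun s =>
    (((LinearMap.proj (j s) : (Fin (L + 1) → ℝ) →ₗ[ℝ] ℝ) -
      (LinearMap.proj (i s) : (Fin (L + 1) → ℝ) →ₗ[ℝ] ℝ)).comp V.subtype) with hφ
  set Λ : (Fin (D + 1) → ℝ) →ₗ[ℝ] Module.Dual ℝ V := Fintype.linearCombination ℝ φ with hΛ
  have hker : LinearMap.ker Λ ≠ ⊥ := by
    apply LinearMap.ker_ne_bot_of_finrank_lt
    rw [Subspace.dual_finrank_eq, Module.finrank_fin_fun]
    omega
  obtain ⟨b, hb, hb0⟩ := (Submodule.ne_bot_iff _).mp hker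
  rw [LinearMap.mem_ker] at hb
  obtain ⟨b, hb, s₀, hs₀⟩ : ∃ b : Fin (D + 1) → ℝ, Λ b = 0 ∧ ∃ s, 0 < b s := by
    obtain ⟨s, hs⟩ := Function.ne_iff.mp hb0
    rcases lt_or_gt_of_ne (show b s ≠ 0 from hs) with h1 | h1
    · refine ⟨-b, by rw [map_neg, hb, neg_zero], s, ?_⟩
      simp only [Pi.neg_apply]
      linarith
    · exact ⟨b, hb, s, h1⟩
  have hzero : ∀ w ∈ V, ∑ s, b s * (w (j s) - w (i s)) = 0 := by
    intro w hw
    have h1 := LinearMap.congr_fun hb ⟨w, hw⟩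
    rw [hΛ, Fintype.linearCombination_apply, LinearMap.sum_apply] at h1
    simpa [hφ, smul_eq_mul] using h1
  -- the two patterns
  obtain ⟨w₁, hw₁, h₁⟩ := h {s | 0 < b s}
  obtain ⟨w₂, hw₂, h₂⟩ := h {s | b s < 0}
  have k1 : 0 < ∑ s, b s * (w₁ (j s) - w₁ (i s) - θ s) := by
    refine Finset.sum_pos' (fun s _ => ?_) ⟨s₀, Finset.mem_univ _, ?_⟩
    · by_cases g : 0 < b s
      · have := (h₁ s).1 g
        exact mul_nonneg g.le (by linarith)
      · have : ¬ θ s < w₁ (j s) - w₁ (i s) := fun g' => g ((h₁ s).2 g')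
        exact mul_nonneg_of_nonpos_of_nonpos (not_lt.1 g) (by linarith)
    · have := (h₁ s₀).1 hs₀
      exact mul_pos hs₀ (by linarith)
  have k2 : ∑ s, b s * (w₂ (j s) - w₂ (i s) - θ s) ≤ 0 := by
    refine Finset.sum_nonpos fun s _ => ?_
    by_cases g : b s < 0
    · have := (h₂ s).1 g
      exact mul_nonpos_of_nonpos_of_nonneg g.le (by linarith)
    · have : ¬ θ s < w₂ (j s) - w₂ (i s) := fun g' => g ((h₂ s).2 g')
      exact mul_nonpos_of_nonneg_of_nonpos (not_lt.1 g) (by linarith)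
  have e : ∀ w ∈ V, ∑ s, b s * (w (j s) - w (i s) - θ s) = - ∑ s, b s * θ s := by
    intro w hw
    have h3 : ∀ s, b s * (w (j s) - w (i s) - θ s) = b s * (w (j s) - w (i s)) - b s * θ s :=
      fun s => by ring
    simp only [h3, Finset.sum_sub_distrib, hzero w hw, zero_sub]
  rw [e w₁ hw₁] at k1
  rw [e w₂ hw₂] at k2
  linarith

end Pool.Agent.R846.VF
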